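import Mathlib
import Pool.Agent.Work.MP_f5610a_lc.Main

open Pool.Agent.Work.MP_f5610a_lc

/-- COLORING is NP-complete on even-antihole-free graphs: COLORING is in NP, and every language
in NP reduces to it by a polynomial-time map all of whose values are codes of instances `(G, k)`
with `G` even-antihole-free. -/
theorem Pool.Agent.Results.MP_f5610a_lc.AntiholeNPC.result :
    coloring ∈ N68a2faeb.NP ∧
    ∀ L ∈ N68a2faeb.NP, ∃ f : List Bool → List Bool, N68a2faeb.IsPolyTime f ∧
      ∀ x : List Bool, ∃ (n : ℕ) (G : SimpleGraph (Fin n)) (k : ℕ),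
        f x = encode G k ∧ EvenAntiholeFree G ∧ (L x = true ↔ G.Colorable k) :=
  ⟨coloring_mem_NP, hard⟩
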