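import Mathlib
import Pool.Agent.Work.MP_f5610a_lc.Hedge.Colour

open Pool.Agent.Work.MP_f5610a_lc

/-- For every even `q ≥ 4`, COLORING is NP-complete on graphs all of whose holes have length `q`
or `q + 1`: COLORING is in NP, and every language in NP reduces to it by a polynomial-time map all
of whose values are codes of instances `(G, k)` where `G` has no induced cycle of any length
`m ≥ 4` other than `q` and `q + 1`. -/
theorem Pool.Agent.Results.MP_f5610a_lc.TwoHoleLengths.result (q : ℕ) (hq : 4 ≤ q)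
    (he : Even q) :
    coloring ∈ N68a2faeb.NP ∧
    ∀ L ∈ N68a2faeb.NP, ∃ f : List Bool → List Bool, N68a2faeb.IsPolyTime f ∧
      ∀ x : List Bool, ∃ (n : ℕ) (G : SimpleGraph (Fin n)) (k : ℕ),
        f x = encode G k ∧
        (∀ m : ℕ, 4 ≤ m → m ≠ q → m ≠ q + 1 → IsEmpty (SimpleGraph.cycleGraph m ↪g G)) ∧
        (L x = true ↔ G.Colorable k) :=
  ⟨coloring_mem_NP, Hedge.hard q hq he⟩
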